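import Pool.Agent.Helper6K9.GM.Arith

/-!
# The Schanuel-type conjecture for the Gamma function on transcendental curves

Let `Ω` be a connected open subset of `ℂ` and let `y_1, …, y_n` be meromorphic functions on `Ω` which
satisfy condition (H) as a tuple of functions: no `y_i` is in `ℚ y_j + ℚ` for `j ≠ i`. Suppose that
every `y_i` either has a pole in `Ω`, or is not constant and algebraic over `ℂ(φ)`, where `φ` is a
fixed nonconstant holomorphic function on `Ω` (for instance `φ = t` or `φ = e ^ t`). Then for all but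
countably many `t ∈ Ω` the conjecture is true for the `n` numbers `z_i = y_i(t)`, over any given
countable field `F` (for instance `ℚ` or its algebraic closure) and with `n + 1` instead of `n`:

  `tr.deg_F F(z_1, …, z_n, Γ(z_1), …, Γ(z_n)) ≥ n + 1`.

Examples: `(z_i) = (t, √2 t, t ^ 2, Γ(t), Γ(t) + t, Γ'(t) / Γ(t), ζ(t), tan t, 1 / (e ^ t - 1))`.
The results in the starting repository treat algebraic curves (`TrdegOne`) and lines.

Proof. The functions `Γ(y_i)` and one suitable `y_j` are algebraically independent over `ℂ`: for the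
functions with poles in `Ω` the values of `Γ` are algebraically independent over all meromorphic
functions on `Ω` (`Pool.Agent.Helper6K9.GM`, from the local theorem at a pole of the starting
repository), and for the algebraic ones one uses the theorem of Ax-Lindemann type.
-/

set_option autoImplicit false

namespace Pool.Agent.Results.MP_26ad15_nt.MeromorphicCurves

theorem result (F : Type) [Field F] [Algebra F ℂ] [Countable F] (n : ℕ) (hn : 0 < n)
    (Ω : Set ℂ) (hΩ : IsOpen Ω) (hΩc : IsPreconnected Ω)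
    (φ : ℂ → ℂ) (hφ : DifferentiableOn ℂ φ Ω) (hφc : ∀ v : ℂ, ∃ t ∈ Ω, φ t ≠ v)
    (y : Fin n → ℂ → ℂ) (hy : ∀ i, MeromorphicOn (y i) Ω)
    (hcase : ∀ i, (∃ x ∈ Ω, meromorphicOrderAt (y i) x < 0) ∨
      ((∀ v : ℂ, ∃ t ∈ Ω, AnalyticAt ℂ (y i) t ∧ y i t ≠ v) ∧
        ∃ Q : Polynomial (Polynomial ℂ), Q ≠ 0 ∧
          ∀ t ∈ Ω, AnalyticAt ℂ (y i) t → Q.evalEval (φ t) (y i t) = 0))
    (hH : ∀ i j, i ≠ j → ∀ p q : ℚ, ∃ t ∈ Ω, AnalyticAt ℂ (y i) t ∧ AnalyticAt ℂ (y j) t ∧
      y i t ≠ p * y j t + q) :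
    {t : ℂ | t ∈ Ω ∧ Algebra.trdeg F (IntermediateField.adjoin F
      (Set.range (fun i => y i t) ∪ Set.range fun i => Complex.Gamma (y i t))) <
        ((n + 1 : ℕ) : Cardinal)}.Countable :=
  Pool.Agent.Helper6K9.GM.arith F hn hΩ hΩc φ hφ hφc y hy hcase hH

end Pool.Agent.Results.MP_26ad15_nt.MeromorphicCurves
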