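import Pool.Agent.Helper6K9.GM.Main

/-!
# An Ax-Schanuel type theorem for the Gamma function: meromorphic functions with poles

Let `Ω` be a connected open subset of `ℂ ^ d` and let `y_1, …, y_n` be meromorphic functions on `Ω`,
each with at least one pole in `Ω` (the poles may be at different places), such that no `y_i` is in
`ℚ y_j + ℚ` for `j ≠ i`. Then `Γ(y_1), …, Γ(y_n)` are algebraically independent over the field of
ALL meromorphic functions on `Ω`. The `y_i` need not be algebraic functions. In particular the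
inequality of Ax-Schanuel type
`tr.deg ℂ(y_1, …, y_n, Γ(y_1), …, Γ(y_n)) = n + tr.deg ℂ(y_1, …, y_n) ≥ n + rank (∂ y_i / ∂ t_j)`
holds for these functions; for example for `Γ(t)`, `Γ(t) + t`, `ζ(t)`, `tan t`, `1 / (e ^ t - 1)`,
`℘(t)`, `Γ'(t) / Γ(t)`, or for quotients of entire functions of several variables.

Proof. Near a pole of one of the functions restrict to a generic complex line: the local theorem
`Pool.Agent.W175.GF.ltF` of the starting repository (values of `Γ` at meromorphic germs with a pole)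
gives the vanishing of the coefficients of a relation with respect to that function on the line.
The complement of the polar sets is connected, so the coefficients vanish identically, and one
removes the functions one at a time although they have their poles at different points.
-/

set_option autoImplicit false

open Topology

namespace Pool.Agent.Results.MP_26ad15_nt.MeromorphicFunctions

/-- The function `u` is meromorphic at `x`: near `x` it is a quotient `f / g` of two holomorphic
functions, where `g` does not vanish identically near `x` (the values of `u` at the zeros of `g` do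
not matter). -/
def MeromorphicNear {d : ℕ} (u : (Fin d → ℂ) → ℂ) (x : Fin d → ℂ) : Prop :=
  ∃ f g : (Fin d → ℂ) → ℂ, AnalyticAt ℂ f x ∧ AnalyticAt ℂ g x ∧ (¬ ∀ᶠ z in 𝓝 x, g z = 0) ∧
    ∀ᶠ z in 𝓝 x, g z ≠ 0 → u z = f z / g z

/-- The function `u` is meromorphic at `x` with a pole: near `x` it is a quotient `f / g` of two
holomorphic functions, where `g` does not vanish identically near `x`, `g x = 0` and `f x ≠ 0`. -/
def HasPoleAt {d : ℕ} (u : (Fin d → ℂ) → ℂ) (x : Fin d → ℂ) : Prop :=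
  ∃ f g : (Fin d → ℂ) → ℂ, AnalyticAt ℂ f x ∧ AnalyticAt ℂ g x ∧ (¬ ∀ᶠ z in 𝓝 x, g z = 0) ∧
    (∀ᶠ z in 𝓝 x, g z ≠ 0 → u z = f z / g z) ∧ g x = 0 ∧ f x ≠ 0

/-- **Ax-Schanuel type theorem.** Let `∑ c_k ∏ Y_i ^ (k_i)`, `k ∈ N`, be a polynomial whose
coefficients `c_k` are meromorphic functions on `Ω`, not all zero. Then its value at
`Γ(y_1), …, Γ(y_n)` is not identically zero. -/
theorem result (d n : ℕ) (Ω : Set (Fin d → ℂ)) (hΩ : IsOpen Ω) (hΩc : IsPreconnected Ω)
    (y : Fin n → (Fin d → ℂ) → ℂ) (hy : ∀ i, ∀ x ∈ Ω, MeromorphicNear (y i) x)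
    (hpole : ∀ i, ∃ x ∈ Ω, HasPoleAt (y i) x)
    (hH : ∀ i j, i ≠ j → ∀ p q : ℚ, ∃ t ∈ Ω, AnalyticAt ℂ (y i) t ∧ AnalyticAt ℂ (y j) t ∧
      y i t ≠ p * y j t + q)
    (N : Finset (Fin n → ℕ)) (c : (Fin n → ℕ) → (Fin d → ℂ) → ℂ)
    (hc : ∀ k ∈ N, ∀ x ∈ Ω, MeromorphicNear (c k) x)
    (hc0 : ∃ k ∈ N, ∃ t ∈ Ω, AnalyticAt ℂ (c k) t ∧ c k t ≠ 0) :
    ∃ t ∈ Ω, (∀ i, AnalyticAt ℂ (y i) t ∧ ∀ m : ℕ, y i t ≠ -m) ∧
      (∀ k ∈ N, AnalyticAt ℂ (c k) t) ∧
      ∑ k ∈ N, c k t * ∏ i, Complex.Gamma (y i t) ^ k i ≠ 0 :=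
  Pool.Agent.Helper6K9.GM.main hΩ hΩc y hy hpole hH N c hc hc0

end Pool.Agent.Results.MP_26ad15_nt.MeromorphicFunctions
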