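import Pool.Agent.Helper6K9.GH.Loc
import Pool.Agent.Y549.GM.Gen

/-!
# Values of the Gamma function on transcendental curves at points of bounded height

Let `z_ji = y_ji(t_j)`, `i < p`, `j < n`, where the `y_ji` are meromorphic functions on a connected open set `Ω_j`, each with
a pole in `Ω_j`, such that for each `j` the curve `(y_ji)_i` satisfies condition (H) as a tuple of functions: no `y_ji` is in
`ℚ y_jk + ℚ`, `k ≠ i`. The `y_ji` need not be algebraic functions. Let `h_jl`, `l < k`, be meromorphic functions on `Ω_j`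
which are algebraically independent over `ℂ(t)`; they are arbitrary otherwise, and may be among the `y_ji`. The parameters
`t_j` are elements of a number field `F`, of height at most `T`. For all but few `n`-tuples of parameters the `n (p + k)`
numbers `Γ(z_ji)` and `h_jl(t_j)` satisfy no relation, not even an approximate one, of degree at most `d` whose coefficients
are integer polynomials, over `F`, in values of rational functions of the `t_j` and in arbitrary complex constants
`ξ_1, …, ξ_g`, of degree at most `d` and height at most `T ^ A`.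

For instance let `n = 1`, `F = ℚ`, `y_1 = Γ(t)`, `y_2 = Γ(t) + t`, `h = Γ(t)` and `L = [1, 2]`. The number of rational
numbers in `L` of height at most `T` grows like `T ^ 2`, and for all but at most `C T ^ ε` of them the three numbers `Γ(t)`,
`Γ(Γ(t))`, `Γ(Γ(t) + t)` satisfy no algebraic relation of degree at most `d` and height at most `T ^ A`. In general the
theorem implies that for all but few tuples of parameters the `n p` numbers `Γ(z_ji)` satisfy no relation of bounded degree
and polynomially bounded height, as the conjecture suggests. The theorem `AlgebraicCurves` of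
the starting repository treats algebraic functions `y_ji`.
-/

set_option autoImplicit false

open NumberField

namespace Pool.Agent.Results.MP_26ad15_nt.MeromorphicHeights

variable {n p k q g : ℕ}

/-- The elements of the number field `F` with image in `L` which are quotients of two integers of `F` all of whose
conjugates have absolute value at most `T`. -/
def Points (F : Type) [Field F] [NumberField F] (ι : F →+* ℂ) (L : Set ℂ) (T : ℝ) : Set F :=
  {x | ι x ∈ L ∧ ∃ a b : 𝓞 F, b ≠ 0 ∧ (∀ φ : F →+* ℂ, ‖φ a‖ ≤ T ∧ ‖φ b‖ ≤ T) ∧ x = a / b}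

/-- The value of a polynomial with coefficients in the integers of `F` at the `n q + g` numbers `u_jk(t_j) / w_j(t_j)`
and `ξ_s`. -/
noncomputable def coefficient (F : Type) [Field F] (ι : F →+* ℂ) (u : Fin n → Fin q → Polynomial ℂ)
    (w : Fin n → Polynomial ℂ) (ξ : Fin g → ℂ) (t : Fin n → F) :
    MvPolynomial ((Fin n × Fin q) ⊕ Fin g) (𝓞 F) →+* ℂ :=
  MvPolynomial.eval₂Hom (ι.comp (algebraMap (𝓞 F) F))
    (Sum.elim (fun x => (u x.1 x.2).eval (ι (t x.1)) / (w x.1).eval (ι (t x.1))) ξ)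

/-- The numbers `Γ(y_i(t))`, `i < p`, followed by the numbers `h_l(t)`, `l < k`. -/
noncomputable def values (y : Fin p → ℂ → ℂ) (h : Fin k → ℂ → ℂ) (t : ℂ) : Fin (p + k) → ℂ :=
  Fin.append (fun i => Complex.Gamma (y i t)) (fun l => h l t)

/-- The `n`-tuples `t` of points `t_j` of `L_j` for which there is a polynomial `P` in `n (p + k)` variables, of degree at
most `d` in each variable, whose coefficients are values `coefficient c` of polynomials `c` of degree at most `d` in each
variable with coefficients all of whose conjugates are at most `T ^ A`, such that the value of `P` at the `n (p + k)`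
numbers `Γ(y_ji(t_j))` and `h_jl(t_j)` is at most `T ^ (-B)` times the absolute value of some nonzero coefficient of `P`. -/
def Exceptional (F : Type) [Field F] [NumberField F] (ι : F →+* ℂ) (d : ℕ) (y : Fin n → Fin p → ℂ → ℂ)
    (h : Fin n → Fin k → ℂ → ℂ) (u : Fin n → Fin q → Polynomial ℂ) (w : Fin n → Polynomial ℂ) (ξ : Fin g → ℂ)
    (L : Fin n → Set ℂ) (A B T : ℝ) : Set (Fin n → F) :=
  {t | (∀ j, t j ∈ Points F ι (L j) T) ∧
    ∃ P : MvPolynomial (Fin n × Fin (p + k)) (MvPolynomial ((Fin n × Fin q) ⊕ Fin g) (𝓞 F)),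
      (∀ x, P.degreeOf x ≤ d) ∧ (∀ e v, (P.coeff e).degreeOf v ≤ d) ∧
      (∀ e s (φ : F →+* ℂ), ‖φ ((P.coeff e).coeff s : 𝓞 F)‖ ≤ T ^ A) ∧
      ∃ e₀, coefficient F ι u w ξ t (P.coeff e₀) ≠ 0 ∧
        ‖MvPolynomial.eval₂ (coefficient F ι u w ξ t) (fun x => values (y x.1) (h x.1) (ι (t x.1)) x.2) P‖ ≤
          T ^ (-B) * ‖coefficient F ι u w ξ t (P.coeff e₀)‖}

/-- For `j < n` let `Ω_j` be open and connected, `y_ji` (`i < p`) meromorphic functions on `Ω_j`, each with a pole in `Ω_j`,
`y_ji` not in `ℚ y_jl + ℚ` for `i ≠ l`; let `h_jl` (`l < k`) be meromorphic functions on `Ω_j` which are algebraically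
independent over `ℂ(t)`; let `L_j ⊆ Ω_j` be compact without singularities of the `y_ji` and `h_jl` and without points where
some `y_ji` is a pole of `Γ`; `u_jk`, `w_j` complex polynomials, `w_j` without zeros on `L_j`. For all `m`, `g`, `d`, `A` and
`ε > 0` there are `B`, `C`, `T₀` such that for every number field `F` of degree at most `m`, every embedding of `F` in `ℂ`,
all complex numbers `ξ_1, …, ξ_g` and all `T ≥ T₀` the number of exceptional `n`-tuples is at most `C T^ε N^(n - 1)`, where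
`N` is the number of points of the union of the `L_j`. -/
theorem result (m n p k q g d : ℕ) (Ω : Fin n → Set ℂ) (hΩ : ∀ j, IsOpen (Ω j)) (hΩc : ∀ j, IsPreconnected (Ω j))
    (y : Fin n → Fin p → ℂ → ℂ) (hy : ∀ j i, MeromorphicOn (y j i) (Ω j))
    (hpole : ∀ j i, ∃ x ∈ Ω j, meromorphicOrderAt (y j i) x < 0)
    (hH : ∀ j i l, i ≠ l → ∀ a b : ℚ, ∃ t ∈ Ω j, AnalyticAt ℂ (y j i) t ∧ AnalyticAt ℂ (y j l) t ∧
      y j i t ≠ a * y j l t + b)
    (h : Fin n → Fin k → ℂ → ℂ) (hh : ∀ j l, MeromorphicOn (h j l) (Ω j))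
    (hind : ∀ j, ∀ P : MvPolynomial (Option (Fin k)) ℂ, P ≠ 0 → ∃ t ∈ Ω j, (∀ l, AnalyticAt ℂ (h j l) t) ∧
      MvPolynomial.eval (fun o => o.elim t fun l => h j l t) P ≠ 0)
    (L : Fin n → Set ℂ) (hL : ∀ j, IsCompact (L j)) (hLΩ : ∀ j, L j ⊆ Ω j)
    (hLy : ∀ j, ∀ t ∈ L j, ∀ i, AnalyticAt ℂ (y j i) t ∧ ∀ l : ℕ, y j i t ≠ -l)
    (hLh : ∀ j, ∀ t ∈ L j, ∀ l, AnalyticAt ℂ (h j l) t)
    (u : Fin n → Fin q → Polynomial ℂ) (w : Fin n → Polynomial ℂ) (hw : ∀ j, ∀ t ∈ L j, (w j).eval t ≠ 0)
    (A ε : ℝ) (hε : 0 < ε) :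
    ∃ B C T₀ : ℝ, ∀ (F : Type) [Field F] [NumberField F], Module.finrank ℚ F ≤ m →
      ∀ (ι : F →+* ℂ) (ξ : Fin g → ℂ) (T : ℝ), T₀ ≤ T → (Exceptional F ι d y h u w ξ L A B T).Finite ∧
        ((Exceptional F ι d y h u w ξ L A B T).ncard : ℝ) ≤
          C * T ^ ε * ((Points F ι (⋃ j, L j) T).ncard : ℝ) ^ (n - 1) := by
  classical
  obtain ⟨B, C, T₀, hC, hT₀, H⟩ := Pool.Agent.Y549.GM.general m n (p + k) q g d
    (fun j x => Pool.Agent.Helper6K9.GH.fam (y j) (h j) x) L hL
    (fun j x t ht => Pool.Agent.Helper6K9.GH.fam_an (hLy j t ht) (hLh j t ht) x)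
    (fun j t ht => Pool.Agent.Helper6K9.GH.locIndMero (hΩ j) (hΩc j) (y j) (hy j) (hpole j) (hH j) (h j) (hh j)
      (hind j) t (hLΩ j ht) (hLy j t ht) (hLh j t ht)) u w hw A ε hε
  refine ⟨B, C, T₀, fun F _ _ hF ι ξ T hT => ?_⟩
  have hT0 : 0 ≤ T := by linarith
  have hP : ∀ S : Set ℂ, Points F ι S T = {x : F | Pool.Agent.Y120.HtLe F T x ∧ ι x ∈ S} := by
    intro S
    ext x
    constructor
    · rintro ⟨h1, a, b, hb, hab, hx⟩
      exact ⟨⟨a, b, hb, Pool.Agent.Y120.house_le F hT0 fun φ => (hab φ).1,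
        Pool.Agent.Y120.house_le F hT0 fun φ => (hab φ).2, hx⟩, h1⟩
    · rintro ⟨⟨a, b, hb, ha, hb', hx⟩, h1⟩
      exact ⟨h1, a, b, hb, fun φ => ⟨(Pool.Agent.Y120.house_ge F _ φ).trans ha,
        (Pool.Agent.Y120.house_ge F _ φ).trans hb'⟩, hx⟩
  have hE : Exceptional F ι d y h u w ξ L A B T =
      Pool.Agent.Y549.GM.Exc F ι d (fun j x => Pool.Agent.Helper6K9.GH.fam (y j) (h j) x) u w ξ L A B T := by
    ext t
    simp only [Exceptional, Pool.Agent.Y549.GM.Exc, Set.mem_ofPred_eq, hP]
    rfl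
  rw [hE, hP]
  exact H F hF ι ξ T hT

end Pool.Agent.Results.MP_26ad15_nt.MeromorphicHeights
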