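import Pool.Agent.R349.Generic
import Pool.Agent.Helper6K9.GH.Loc

/-!
# Values of the Gamma function on transcendental curves: a bounded number of exceptions in small discs

Let `y_ji`, `i < p`, be meromorphic functions on a connected open set `Ω`, each with a pole in `Ω`, such that for each `j` the
curve `(y_ji)_i` satisfies condition (H) as a tuple of functions: no `y_ji` is in `ℚ y_jk + ℚ`, `k ≠ i`; and let `h_jl`,
`l < k`, be any meromorphic functions on `Ω` which are algebraically independent over `ℂ(t)`. For instance `y_j1 = Γ(t)`,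
`y_j2 = Γ(t) + t` and `h_j1 = Γ(t)`. We consider the `n (p + k)` numbers `Γ(y_ji(t_j))` and `h_jl(t_j)` for `n`-tuples of
parameters `t_j` in a number field `F` of degree at most `m`, of height at most `T` and in a compact set `L`; for instance all
`t_j` can be fractions with one fixed denominator `T`.

Let `X_1, …, X_n` be finite sets of such parameters, each of diameter at most `T ^ (-δ)`. All but `C ∑_j ∏_(i ≠ j) |X_i|` of
the tuples of `X_1 × … × X_n` are good, and there is a good one if all `|X_j| > C`; here `C` does not depend on `T`, `F` and the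
`X_j`. For `n = 1`: each disc of radius `T ^ (-δ) / 2` contains at most `C` elements of `F` of height at most `T` which are not
good. Good means that the `n (p + k)` numbers and `π` satisfy no polynomial relation of degree at most `d` and height at most
`T ^ A` over `F`, and the `n (p + k)` numbers satisfy no such relation, not even an approximate one, whose coefficients are
combinations of given complex numbers `ξ_1, …, ξ_g`. The theorem `SmallDiscs` of the starting repository treats algebraic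
functions `y_i`.
-/

set_option autoImplicit false

open NumberField

namespace Pool.Agent.Results.MP_26ad15_nt.MeromorphicSmallDiscs

/-- The polynomials of degree at most `d` in each variable, all of whose coefficients are of the form `∑ ξ_i ι(c_i)`, where
the `c_i` are integers of the number field `F` all of whose conjugates have absolute value at most `H`. -/
def Admissible {σ : Type} {g : ℕ} (F : Type) [Field F] [NumberField F] (ι : F →+* ℂ) (ξ : Fin g → ℂ) (d : ℕ) (H : ℝ)
    (P : MvPolynomial σ ℂ) : Prop :=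
  (∀ j, P.degreeOf j ≤ d) ∧
    ∀ s, ∃ c : Fin g → 𝓞 F, (∀ i (φ : F →+* ℂ), ‖φ (c i)‖ ≤ H) ∧ P.coeff s = ∑ i, ξ i * ι (c i)

/-- The numbers `Γ(y_ji(t_j))` (`i < p`) and `h_jl(t_j)` (`l < k`) for all `j < n`. -/
noncomputable def values {n p k : ℕ} (y : Fin n → Fin p → ℂ → ℂ) (h : Fin n → Fin k → ℂ → ℂ) (t : Fin n → ℂ)
    (x : Fin n × Fin (p + k)) : ℂ :=
  Fin.append (fun i => Complex.Gamma (y x.1 i (t x.1))) (fun l => h x.1 l (t x.1)) x.2

/-- The tuple `t` of elements of `F` is good: every admissible polynomial takes at the `n (p + k)` numbers `values` a value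
which is at least `δ` times each of its coefficients, and `π` and these numbers satisfy no relation `Q = 0` with a nonzero
polynomial `Q` of degree at most `d` in each variable whose coefficients are integers of `F` with conjugates of absolute
value at most `H`. -/
def Good {n p k g : ℕ} (F : Type) [Field F] [NumberField F] (ι : F →+* ℂ) (ξ : Fin g → ℂ) (y : Fin n → Fin p → ℂ → ℂ)
    (h : Fin n → Fin k → ℂ → ℂ) (d : ℕ) (H δ : ℝ) (t : Fin n → F) : Prop :=
  (∀ P : MvPolynomial (Fin n × Fin (p + k)) ℂ, Admissible F ι ξ d H P → ∀ s,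
    δ * ‖P.coeff s‖ ≤ ‖MvPolynomial.aeval (values y h fun j => ι (t j)) P‖) ∧
  ∀ Q : MvPolynomial (Option (Fin n × Fin (p + k))) (𝓞 F), Q ≠ 0 → (∀ x, Q.degreeOf x ≤ d) →
    (∀ s (φ : F →+* ℂ), ‖φ ((Q.coeff s : 𝓞 F) : F)‖ ≤ H) →
    MvPolynomial.eval₂ (ι.comp (algebraMap (𝓞 F) F))
      (fun o => o.elim (Real.pi : ℂ) (values y h fun j => ι (t j))) Q ≠ 0

/-- The element `x` of `F` is a quotient of integers all of whose conjugates have absolute value at most `T`. -/
def HeightLe (F : Type) [Field F] [NumberField F] (T : ℝ) (x : F) : Prop :=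
  ∃ a b : 𝓞 F, b ≠ 0 ∧ (∀ φ : F →+* ℂ, ‖φ a‖ ≤ T ∧ ‖φ b‖ ≤ T) ∧ x = a / b

/-- Let the `y_ji` be meromorphic functions on the connected open set `Ω`, each with a pole in `Ω`, `y_ji` not in
`ℚ y_jl + ℚ` for `i ≠ l`; let the `h_jl` be meromorphic functions on `Ω`, for each `j` algebraically independent over `ℂ(t)`.
Let `L` be a compact subset of `Ω` without singularities of the `y_ji` and `h_jl`, on which the `y_ji` take no value
`0, -1, -2, …`. -/
theorem result (m n p k g d : ℕ) (Ω : Set ℂ) (hΩ : IsOpen Ω) (hΩc : IsPreconnected Ω)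
    (y : Fin n → Fin p → ℂ → ℂ) (hy : ∀ j i, MeromorphicOn (y j i) Ω)
    (hpole : ∀ j i, ∃ x ∈ Ω, meromorphicOrderAt (y j i) x < 0)
    (hH : ∀ j i l, i ≠ l → ∀ a b : ℚ, ∃ t ∈ Ω, AnalyticAt ℂ (y j i) t ∧ AnalyticAt ℂ (y j l) t ∧
      y j i t ≠ a * y j l t + b)
    (h : Fin n → Fin k → ℂ → ℂ) (hh : ∀ j l, MeromorphicOn (h j l) Ω)
    (hind : ∀ j, ∀ P : MvPolynomial (Option (Fin k)) ℂ, P ≠ 0 → ∃ t ∈ Ω, (∀ l, AnalyticAt ℂ (h j l) t) ∧
      MvPolynomial.eval (fun o => o.elim t fun l => h j l t) P ≠ 0)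
    (L : Set ℂ) (hL : IsCompact L) (hLΩ : L ⊆ Ω)
    (hLy : ∀ j, ∀ t ∈ L, ∀ i, AnalyticAt ℂ (y j i) t ∧ ∀ l : ℕ, y j i t ≠ -l)
    (hLh : ∀ j, ∀ t ∈ L, ∀ l, AnalyticAt ℂ (h j l) t) (A δ : ℝ) (hδ : 0 < δ) :
    ∃ (B : ℝ) (C : ℕ) (T₀ : ℝ), ∀ (F : Type) [Field F] [NumberField F], Module.finrank ℚ F ≤ m →
      ∀ (ι : F →+* ℂ) (ξ : Fin g → ℂ) (T : ℝ), T₀ ≤ T → ∀ X : Fin n → Finset F,
        (∀ j, ∀ x ∈ X j, ι x ∈ L ∧ HeightLe F T x) → (∀ j, ∀ x ∈ X j, ∀ x' ∈ X j, ‖ι x - ι x'‖ ≤ T ^ (-δ)) →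
        (({t : Fin n → F | (∀ j, t j ∈ X j) ∧ ¬ Good F ι ξ y h d (T ^ A) (T ^ (-B)) t}.ncard : ℝ) ≤
          C * ∑ j, ∏ i ∈ Finset.univ.erase j, ((X i).card : ℝ)) ∧
        ((∀ j, C < (X j).card) → ∃ t : Fin n → F, (∀ j, t j ∈ X j) ∧ Good F ι ξ y h d (T ^ A) (T ^ (-B)) t) := by
  exact Pool.Agent.R349.Gen.shortG m n g d (fun j x => Pool.Agent.Helper6K9.GH.fam (y j) (h j) x) L hL
    (fun j x t ht => Pool.Agent.Helper6K9.GH.fam_an (hLy j t ht) (hLh j t ht) x)
    (fun j t ht => Pool.Agent.Helper6K9.GH.locIndMero hΩ hΩc (y j) (hy j) (hpole j) (hH j) (h j) (hh j)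
      (hind j) t (hLΩ ht) (hLy j t ht) (hLh j t ht)) A δ hδ

end Pool.Agent.Results.MP_26ad15_nt.MeromorphicSmallDiscs
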